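import Pool.Agent.Helper13.MLF.Defs

/-!
# Project MLF: the bounds in absolute form
-/

set_option autoImplicit false
set_option linter.unusedSectionVars false

namespace Pool.Agent.MLF

open VC IntermediateField NumberField IsDedekindDomain Pool.Agent.SC
open Pool.Agent.L (Inert L0 MM SamePlace OverV)
open Pool.Agent.LN (Geo Act HasSec GoodCurve IsRam DecPt)
open Pool.Agent.HG (Pr nm Ctx Gd)
open Pool.Agent.MP (kap kap_pos)
open Pool.Agent.ML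

/-- Absolute bounds: no twist has a section, or the number of the twists with a section is at most
`C X (log X) ^ (κ - 1 - η)` and the number of the twists soluble at the primes which divide them is
at least `δ X (log X) ^ (κ - 1)`, in every coset `c₀ W` which contains one; `κ = (ℓ - 1) κ₀`, `κ₀` the
proportion of the `σ` which fix a branch point. -/
def StmtAbsL : Prop :=
  ∀ (k K0 : Type) [Field k] [NumberField k] [Field K0] [Algebra k K0] (ℓ : ℕ) (h : K0),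
    ℓ.Prime → HasMu k ℓ → GoodCurve k ℓ h → HL k ℓ h →
    (∀ c : k, c ≠ 0 → ¬ HasSec ℓ h c) ∨
    ∃ κ η C : ℝ, 0 < κ ∧ 0 < η ∧ 0 < C ∧
      (∀ X : ℕ, 3 ≤ X → ∀ T : Finset k,
        (∀ c ∈ T, ∀ c' ∈ T, (∃ d : k, c = c' * d ^ ℓ) → c = c') →
        (∀ c ∈ T, c ≠ 0 ∧ LN.cond ℓ c ≤ X ∧ HasSec ℓ h c) →
        (T.card : ℝ) ≤ C * (X * Real.log X ^ (κ - 1)) / Real.log X ^ η) ∧
      ∀ (Sg : Set (Pr k)), Sg.Finite → ∀ (W : Subgroup kˣ), W.FiniteIndex → ∀ c₀ : kˣ,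
        (∀ v ∉ Sg, IsRam ℓ v (c₀ : k) → FrobFix k ℓ h v) →
        ∃ (δ : ℝ) (X₀ : ℕ), 0 < δ ∧ ∀ X : ℕ, X₀ ≤ X → ∃ T : Finset kˣ,
          (∀ c ∈ T, ∀ c' ∈ T, (∃ d : k, (c : k) = c' * d ^ ℓ) → c = c') ∧
          (∀ c ∈ T, LN.cond ℓ (c : k) ≤ X ∧ c₀⁻¹ * c ∈ W ∧
            ∀ v ∉ Sg, IsRam ℓ v (c : k) → FrobFix k ℓ h v) ∧
          δ * (X * Real.log X ^ (κ - 1)) ≤ T.card

/-- The absolute bounds from the blocks. -/
theorem absL_of (hTR : LN.StmtTR) (hNR : StmtNR) (hFB : M.StmtFB)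
    (hFIN : StmtFIN) (hZ : StmtZ) (hINT : StmtINT) (hLFT : StmtLFT) (hMU : StmtMU)
    (hQMD : StmtQMD) (hW3 : M.StmtW3) (hSel : StmtSel) (hMert : HG.StmtMert)
    (hSplit : HG.StmtSplit) (hBTL : StmtBTL)
    (hThue : HG.StmtThue) (hG4 : StmtG4P) (hG1 : StmtG1) (hG2 : StmtG2)
    (hCount : Pool.Agent.Helper99.ML.StmtCountL) (hCLL : StmtCLL) (hBIJ : StmtBIJ)
    (hDK : MP.StmtDK) (hG3R : StmtG3R) (hPIT : MP.StmtPIT) (hLOWK : StmtLOWK)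
    (hLOWC : StmtLOWC) : StmtAbsL := by
  intro k K0 _ _ _ _ ℓ h hℓ hmu hG hHL
  obtain ⟨E, U, _, _, _, _, _, _, _, _, r, G, hact⟩ := hTR k K0 ℓ h hℓ.two_le hG
  by_cases hex : ∃ (c₁ : k) (Φ₁ : (E ≃ₐ[k] E) →* (U ≃+* U)), c₁ ≠ 0 ∧ Act (K0 := K0) ℓ r c₁ Φ₁
  swap
  · refine Or.inl fun c hc hs => ?_
    obtain ⟨Φ, hΦ⟩ := hact _ hc hs
    exact hex ⟨_, Φ, hc, hΦ⟩
  obtain ⟨c₁, Φ₁, hc₁, hA₁⟩ := hex
  have hclE : IsAlgClosed E := G.clE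
  have halg : Algebra.IsAlgebraic k E := G.algE
  have hcl : IsAlgClosure k E := ⟨hclE, halg⟩
  let e : E ≃ₐ[k] AlgebraicClosure k := IsAlgClosure.equiv k E (AlgebraicClosure k)
  obtain ⟨f, θ, Gl'⟩ := exists_glE hNR hFB hℓ.pos hℓ dvd_rfl hmu G (noTot_of_HL hℓ hHL) hc₁ hA₁
  obtain ⟨β, hβ, hβ'⟩ := hBIJ k K0 E U ℓ h r hℓ.two_le G c₁ Φ₁ hc₁ hA₁
  obtain ⟨γ, hγ⟩ := exists_gbr hℓ β hβ hβ'
  have hroots := fun (L : Type) [Field L] [NumberField L] [Algebra k L] [IsGalois k L]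
    (hs : (f.map (algebraMap k L)).Splits) =>
    hl_roots (L := L) Gl' hc₁ hA₁ (IsAlgClosed.lift : L →ₐ[k] E) hs γ hγ (hl_E e hHL)
  have hNF : NumberField f.SplittingField := NumberField.of_module_finite k f.SplittingField
  have hGal : IsGalois k f.SplittingField := IsGalois.of_separable_splitting_field Gl'.sep
  have hdeg : 2 ≤ f.natDegree :=
    (hroots f.SplittingField (Polynomial.SplittingField.splits f)).2
  obtain ⟨η, C, hη, hC, hup⟩ := upperR hFIN hZ hINT hLFT hMU hQMD hW3 hSel hMert hSplit hBTL hThue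
    hG4 hG1 hG2 hCount hCLL hDK hG3R hℓ hmu G Gl' hdeg (fun L _ _ _ _ hs => (hroots L hs).1)
  have hκ : 0 < ((ℓ - 1 : ℕ) : ℝ) * kap f := by
    have h1 : (0 : ℝ) < ((ℓ - 1 : ℕ) : ℝ) := by
      have := hℓ.two_le
      exact_mod_cast (by omega : 0 < ℓ - 1)
    exact mul_pos h1 (kap_pos (by omega))
  refine Or.inr ⟨((ℓ - 1 : ℕ) : ℝ) * kap f, η, C, hκ, hη, hC, fun X hX T hT1 hT2 => ?_,
    fun Sg hSg W hW c₀ hc₀ => ?_⟩
  · refine hup X hX T hT1 fun c hc => ?_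
    obtain ⟨h1, h2, h3⟩ := hT2 c hc
    exact ⟨h1, h2, hact _ h1 h3⟩
  · exact lowerR hLFT hW3 hMert hThue hG4 hDK hPIT hLOWK hLOWC hℓ G Gl' hdeg hc₁ hA₁ e γ hγ hSg hW
      hc₀

end Pool.Agent.MLF
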