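import Pool.Agent.Helper13.ML.FinR3
import Pool.Agent.Helper97.MP.Defs

/-!
# Project MLF (MP_e66f84_ag): local points of the twists `y ^ ℓ = c h` (final file of the relative
form of project ML): definitions and block statements

Copies of the blocks of `Helper97/MP/Defs.lean` (`Pool.Agent.MPF`), with `ℓ` prime in place of `2`;
`k` contains the `ℓ`-th roots of unity.
-/

set_option autoImplicit false

namespace Pool.Agent.MLF

open NumberField IsDedekindDomain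
open Pool.Agent.HG (Pr nm)
open Pool.Agent.LN (IsRam)
open Pool.Agent.ML (HasMu)
open Pool.Agent.MPF (HasPoint)

noncomputable section

/-- The twist `y ^ ℓ = c h` (the curve with function field `K = K₀(y)`) has an `F`-point. -/
def TwistPoint {k K₀ : Type} [Field k] [Field K₀] [Algebra k K₀] (ℓ : ℕ) (h : K₀) (c : k)
    (F : Type) [Field F] [Algebra k F] : Prop :=
  ∃ (K : Type) (_ : Field K) (_ : Algebra k K) (_ : Algebra K₀ K) (_ : IsScalarTower k K₀ K)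
    (y : K), y ^ ℓ = algebraMap k K c * algebraMap K₀ K h ∧
    IntermediateField.adjoin K₀ {y} = ⊤ ∧ HasPoint k K F

/-- The twist by `c` has points over the completions of `k` at the primes in `S` and those at which
the valuation of `c` is not divisible by `ℓ`, and over the reals, for all embeddings of `k`. -/
def LocSol {k K₀ : Type} [Field k] [NumberField k] [Field K₀] [Algebra k K₀] (ℓ : ℕ) (h : K₀)
    (S : Set (Pr k)) (c : k) : Prop :=
  (∀ v : Pr k, v ∈ S ∨ IsRam ℓ v c → TwistPoint ℓ h c (v.adicCompletion k)) ∧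
  ∀ φ : k →+* ℝ, @TwistPoint k K₀ _ _ _ ℓ h c ℝ _ φ.toAlgebra

/-! ## Blocks -/

/-- the criterion for points on the twist: a point `P` of `Y` with a local homomorphism `φ : P → F`
such that `ℓ` does not divide the value of `h` at `P`, or `h = g z ^ ℓ`, `φ(g) ≠ 0` and `c φ(g)` an
`ℓ`-th power in `F` -/
def Crit {k K₀ : Type} [Field k] [Field K₀] [Algebra k K₀] (ℓ : ℕ) (h : K₀) (c : k) (F : Type)
    [Field F] [Algebra k F] : Prop :=
  ∃ (P : ValuationSubring K₀) (φ : P →+* F),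
    (∀ a : k, ∃ h : algebraMap k K₀ a ∈ P, φ ⟨algebraMap k K₀ a, h⟩ = algebraMap k F a) ∧
    (∀ x : P, φ x = 0 ∨ (x : K₀)⁻¹ ∈ P) ∧
    ((∀ z : K₀, P.valuation h ≠ P.valuation z ^ ℓ) ∨
      ∃ (z : K₀) (g : P), z ≠ 0 ∧ h = g * z ^ ℓ ∧ φ g ≠ 0 ∧
        ∃ t : F, algebraMap k F c * φ g = t ^ ℓ)

/-- BLOCK LPL: the criterion (`MPF.StmtLP`, Helper79/MP/LP.lean). -/
def StmtLPL : Prop :=
  ∀ (k K₀ F : Type) [Field k] [Field K₀] [Field F] [CharZero k] [Algebra k K₀] [Algebra k F]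
    (ℓ : ℕ), ℓ.Prime → HasMu k ℓ → ∀ (h : K₀) (c : k), h ≠ 0 → c ≠ 0 →
    (TwistPoint ℓ h c F ↔ Crit ℓ h c F)

/-- BLOCK L1L (from LPL, HENS): a branch point fixed by a Frobenius element at `v` gives a `k_v`-point
on all twists, for almost all `v` (`MPF.StmtL1`, Helper79/MP/L1.lean). -/
def StmtL1L : Prop :=
  ∀ (k K₀ : Type) [Field k] [NumberField k] [Field K₀] [Algebra k K₀] (ℓ : ℕ), ℓ.Prime →
    HasMu k ℓ → ∀ h : K₀, Pool.Agent.LN.GoodCurve k ℓ h →
    ∃ Bad : Set (Pr k), Bad.Finite ∧ ∀ v ∉ Bad, ∀ c : k, c ≠ 0 →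
      Pool.Agent.ML.FrobFix k ℓ h v → TwistPoint ℓ h c (v.adicCompletion k)

/-- BLOCK L2L (from LPL): the twist by `c` has an `F`-point if the one by `c₀` has and `c / c₀` is an
`ℓ`-th power in `F` (`MPF.StmtL2`). -/
def StmtL2L : Prop :=
  ∀ (k K₀ F : Type) [Field k] [Field K₀] [Field F] [CharZero k] [Algebra k K₀] [Algebra k F]
    (ℓ : ℕ), ℓ.Prime → HasMu k ℓ → ∀ (h : K₀) (c c₀ : k), h ≠ 0 → c ≠ 0 → c₀ ≠ 0 →
    (∃ w : F, algebraMap k F (c₀⁻¹ * c) = w ^ ℓ) → TwistPoint ℓ h c₀ F → TwistPoint ℓ h c F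

/-- BLOCK L4L (from HENS): the elements of `k*` which are `ℓ`-th powers in `k_v` form a subgroup of
finite index (also for `v` above `ℓ`; `MPF.StmtL4`, Helper99/MP/L4.lean). -/
def StmtL4L : Prop :=
  ∀ (k : Type) [Field k] [NumberField k] (ℓ : ℕ), 0 < ℓ → ∀ v : Pr k, ∃ W : Subgroup kˣ,
    W.FiniteIndex ∧ ∀ w ∈ W, ∃ z : v.adicCompletion k,
      algebraMap k (v.adicCompletion k) (w : k) = z ^ ℓ

/-- BLOCK STL (Stepanov's method, `MPF.exists_pt`, Helper97/MP/Step.lean): points of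
`y ^ ℓ = b f(x)` over finite fields, `f = f₁ f₂ ² ... f_(ℓ-1) ^ (ℓ-1)` with `f₁ f₂ ... f_(ℓ-1)` of
positive degree and squarefree. -/
def StmtSTL : Prop :=
  ∀ ℓ : ℕ, ℓ.Prime → ∀ d : ℕ, 0 < d → ∃ N : ℕ, ∀ (F : Type) [Field F] [Finite F]
    (fs : Fin (ℓ - 1) → Polynomial F), (∏ i, fs i).natDegree = d → Squarefree (∏ i, fs i) →
    (N.factorial : F) ≠ 0 → N ≤ Nat.card F → ℓ ∣ Nat.card F - 1 → ∀ b : F, b ≠ 0 →
    ∃ x y : F, y ≠ 0 ∧ y ^ ℓ = b * (∏ i, fs i ^ ((i : ℕ) + 1)).eval x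

/-- BLOCK HWL (from LPL, STL, HENS): for `Y` the projective line almost all primes at which the
valuation of `c` is divisible by `ℓ` have a point on the twist (`MPF.StmtHW`, Helper97/MP/HWb.lean),
and some twist has a rational point. -/
def StmtHWL : Prop :=
  StmtLPL → StmtSTL →
  ∀ (k K₀ : Type) [Field k] [NumberField k] [Field K₀] [Algebra k K₀] (ℓ : ℕ), ℓ.Prime →
    HasMu k ℓ → ∀ h x : K₀, Pool.Agent.LN.GoodCurve k ℓ h → IntermediateField.adjoin k {x} = ⊤ →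
    (∃ Bad : Set (Pr k), Bad.Finite ∧ ∀ v ∉ Bad, ∀ c : k, c ≠ 0 → ¬ IsRam ℓ v c →
      TwistPoint ℓ h c (v.adicCompletion k)) ∧
    ∃ c₀ : kˣ, ∀ (F : Type) [Field F] [Algebra k F], TwistPoint ℓ h (c₀ : k) F

end

end Pool.Agent.MLF
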