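import Pool.Agent.Helper13.MLF.All0
import Pool.Agent.Helper22.MLF.L1L
import Pool.Agent.Helper59.MLF.LPL
import Pool.Agent.Helper70.MLF.HWL
import Pool.Agent.Helper32.MLF.STL
import Pool.Agent.Helper99.MLF.L4L

/-!
# Project MLF: all blocks
-/

set_option autoImplicit false

namespace Pool.Agent.MLF

theorem l1L : StmtL1L := l1L_of lPL

end Pool.Agent.MLF
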