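import Pool.Agent.Helper13.MLF.Abs
import Pool.Agent.Helper88.HG.RatPlace2

/-!
# Project MLF: the proportion of the locally soluble twists with a section
-/

set_option autoImplicit false
set_option linter.unusedSectionVars false

namespace Pool.Agent.MLF

open NumberField IsDedekindDomain
open Pool.Agent.ML (clsU clsU_finite clsU_le le_clsU FrobFix HL HasMu)
open Pool.Agent.LN (GoodCurve HasSec IsRam)
open Pool.Agent.HG (Pr nm)

theorem ram_finite {k : Type} [Field k] [NumberField k] (ℓ : ℕ) (c : k) (hc : c ≠ 0) :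
    {v : Pr k | IsRam ℓ v c}.Finite :=
  (LN.fin_val hc).subset fun _ hv => LN.isRam_ne_one hv

theorem isRam_congr {k : Type} [Field k] [NumberField k] {ℓ : ℕ} {v : Pr k} {c c₀ : k}
    (hc₀ : c₀ ≠ 0)
    (h : ∃ w : v.adicCompletion k, algebraMap k (v.adicCompletion k) (c₀⁻¹ * c) = w ^ ℓ)
    (hr : IsRam ℓ v c) : IsRam ℓ v c₀ := by
  intro d hd
  obtain ⟨w, hw⟩ := h
  obtain ⟨e, he⟩ := HeightOneSpectrum.valuation_surjective k v (Valued.v w)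
  apply hr (d * e)
  have h1 : Valued.v (algebraMap k (v.adicCompletion k) (c₀⁻¹ * c)) = v.valuation k (c₀⁻¹ * c) :=
    HeightOneSpectrum.valuedAdicCompletion_eq_valuation' v _
  rw [hw, map_pow, ← he] at h1
  have h2 : c = c₀ * (c₀⁻¹ * c) := by field_simp
  rw [h2, map_mul, ← h1, hd, map_mul, mul_pow]

/-- the elements of `k*` which are positive at the real embeddings -/
theorem exists_real (k : Type) [Field k] [NumberField k] (ℓ : ℕ) (hℓ : 0 < ℓ) :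
    ∃ W : Subgroup kˣ, W.FiniteIndex ∧ ∀ w ∈ W, ∀ φ : k →+* ℝ, ∃ t : ℝ, φ (w : k) = t ^ ℓ := by
  classical
  have hfin : Finite (k →+* ℝ) := by
    refine Finite.of_injective (fun φ : k →+* ℝ => (Complex.ofRealHom.comp φ : k →+* ℂ)) ?_
    intro φ ψ h
    ext x
    have h1 := RingHom.congr_fun h x
    simpa using h1
  let s : (k →+* ℝ) → kˣ →* SignTypeˣ := fun φ =>
    Units.map ((signHom (α := ℝ) : ℝ →* SignType).comp (φ : k →* ℝ))
  refine ⟨⨅ φ, (s φ).ker, ?_, fun w hw φ => ?_⟩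
  · refine Subgroup.finiteIndex_iInf fun φ => ?_
    exact Subgroup.finiteIndex_ker (s φ)
  · rw [Subgroup.mem_iInf] at hw
    have h1 := (hw φ)
    rw [MonoidHom.mem_ker] at h1
    have h2 := congrArg (fun u : SignTypeˣ => (u : SignType)) h1
    have h3 : SignType.sign (φ (w : k)) = 1 := h2
    rw [sign_eq_one_iff] at h3
    refine ⟨φ w ^ ((ℓ : ℝ)⁻¹), ?_⟩
    exact (Real.rpow_inv_natCast_pow h3.le hℓ.ne').symm

/-- the key inclusion -/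
theorem exists_coset (hL1 : StmtL1L) (hL2 : StmtL2L) (hL4 : StmtL4L) {k K0 : Type} [Field k]
    [NumberField k] [Field K0] [Algebra k K0] {ℓ : ℕ} (hℓ : ℓ.Prime) (hmu : HasMu k ℓ) {h : K0}
    (hG : GoodCurve k ℓ h) {S : Set (Pr k)}
    (hS : S.Finite) {c₀ : kˣ} (hc₀ : LocSol ℓ h S (c₀ : k)) :
    ∃ (Sg : Set (Pr k)) (W : Subgroup kˣ), Sg.Finite ∧ W.FiniteIndex ∧
      (∀ v ∉ Sg, IsRam ℓ v (c₀ : k) → FrobFix k ℓ h v) ∧
      ∀ c : kˣ, c₀⁻¹ * c ∈ W → (∀ v ∉ Sg, IsRam ℓ v (c : k) → FrobFix k ℓ h v) →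
        LocSol ℓ h S (c : k) := by
  have hh : h ≠ 0 := by
    rintro rfl
    refine hG.irr 0 ?_ 1 one_pos hℓ.one_lt ?_
    · rw [map_zero, zero_pow hℓ.ne_zero]
    · rw [pow_one]
      exact zero_mem _
  obtain ⟨Bad, hBad, hL⟩ := hL1 k K0 ℓ hℓ hmu h hG
  obtain ⟨Wr, hWr, hWr2⟩ := exists_real k ℓ hℓ.pos
  choose Wv hWv hWv2 using fun v : Pr k => hL4 k ℓ hℓ.pos v
  have hSg : (S ∪ Bad ∪ {v : Pr k | IsRam ℓ v (c₀ : k)}).Finite :=
    (hS.union hBad).union (ram_finite ℓ _ c₀.ne_zero)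
  refine ⟨S ∪ Bad ∪ {v | IsRam ℓ v (c₀ : k)}, Wr ⊓ ⨅ v ∈ hSg.toFinset, Wv v, hSg, ?_, ?_, ?_⟩
  · have h1 : (⨅ v ∈ hSg.toFinset, Wv v).FiniteIndex :=
      Subgroup.finiteIndex_iInf' Wv fun v _ => hWv v
    exact inferInstance
  · intro v hv hodd
    exact absurd (Or.inr hodd) hv
  · intro c hc hfrob
    rw [Subgroup.mem_inf] at hc
    have hsq : ∀ v ∈ S ∪ Bad ∪ {v | IsRam ℓ v (c₀ : k)},
        ∃ w, algebraMap k (v.adicCompletion k) ((c₀ : k)⁻¹ * c) = w ^ ℓ := by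
      intro v hv
      have h1 := hc.2
      rw [Subgroup.mem_iInf] at h1
      have h2 := h1 v
      rw [Subgroup.mem_iInf] at h2
      have h3 := hWv2 v _ (h2 (hSg.mem_toFinset.2 hv))
      rwa [Units.val_mul, Units.val_inv_eq_inv_val] at h3
    refine ⟨fun v hv => ?_, fun φ => ?_⟩
    · by_cases hvS : v ∈ S ∪ Bad ∪ {v | IsRam ℓ v (c₀ : k)}
      · refine hL2 k K0 (v.adicCompletion k) ℓ hℓ hmu h c c₀ hh c.ne_zero c₀.ne_zero (hsq v hvS)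
          (hc₀.1 v ?_)
        rcases hv with h1 | h1
        · exact Or.inl h1
        · exact Or.inr (isRam_congr c₀.ne_zero (hsq v hvS) h1)
      · have hv1 : v ∉ Bad := fun h1 => hvS (Or.inl (Or.inr h1))
        have hv2 : v ∉ S := fun h1 => hvS (Or.inl (Or.inl h1))
        have hodd : IsRam ℓ v (c : k) := hv.resolve_left hv2
        exact hL v hv1 c c.ne_zero (hfrob v hvS hodd)
    · have h1 := hWr2 _ hc.1 φ
      rw [Units.val_mul, Units.val_inv_eq_inv_val] at h1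
      exact @hL2 k K0 ℝ _ _ _ _ _ φ.toAlgebra ℓ hℓ hmu h c c₀ hh c.ne_zero c₀.ne_zero h1 (hc₀.2 φ)

/-- The bounds for the twists soluble at `S` and at the primes which divide them. -/
theorem locSol_bounds (hAbs : StmtAbsL) (hL1 : StmtL1L) (hL2 : StmtL2L) (hL4 : StmtL4L)
    {k K0 : Type} [Field k] [NumberField k] [Field K0] [Algebra k K0] {ℓ : ℕ} (hℓ : ℓ.Prime)
    (hmu : HasMu k ℓ) {h : K0} (hG : GoodCurve k ℓ h) (hHL : HL k ℓ h) :
    (∀ c : k, c ≠ 0 → ¬ HasSec ℓ h c) ∨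
    ∃ κ η C : ℝ, 0 < κ ∧ 0 < η ∧ 0 < C ∧
      (∀ (P : kˣ → Prop) (X : ℕ), 3 ≤ X →
        (Nat.card (clsU ℓ (fun c : kˣ => P c ∧ HasSec ℓ h (c : k)) X) : ℝ) ≤
          C * (X * Real.log X ^ (κ - 1)) / Real.log X ^ η) ∧
      ∀ S : Set (Pr k), S.Finite → ∀ c₀ : kˣ, LocSol ℓ h S (c₀ : k) →
        ∃ (δ : ℝ) (X₀ : ℕ), 0 < δ ∧ ∀ X : ℕ, X₀ ≤ X →
          δ * (X * Real.log X ^ (κ - 1)) ≤
            Nat.card (clsU ℓ (fun c : kˣ => LocSol ℓ h S (c : k)) X) := by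
  rcases hAbs k K0 ℓ h hℓ hmu hG hHL with h0 | ⟨κ, η, C, hκ, hη, hC, hup, hlow⟩
  · exact Or.inl h0
  refine Or.inr ⟨κ, η, C, hκ, hη, hC, fun P X hX => ?_, fun S hS c₀ hc₀ => ?_⟩
  · refine clsU_le hℓ.two_le _ X _ fun T hT1 hT2 => ?_
    refine hup X hX T hT1 fun c hc => ?_
    obtain ⟨c', rfl, h1, -, h2⟩ := hT2 c hc
    exact ⟨c'.ne_zero, h1, h2⟩
  · obtain ⟨Sg, W, hSg, hW, h1, h2⟩ := exists_coset hL1 hL2 hL4 hℓ hmu hG hS hc₀
    obtain ⟨δ, X₀, hδ, h3⟩ := hlow Sg hSg W hW c₀ h1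
    refine ⟨δ, X₀, hδ, fun X hX => ?_⟩
    obtain ⟨T, hT1, hT2, hT3⟩ := h3 X hX
    refine hT3.trans ?_
    have h4 := le_clsU hℓ.two_le (fun c : kˣ => LocSol ℓ h S (c : k)) X T hT1 fun c hc =>
      ⟨(hT2 c hc).1, h2 c (hT2 c hc).2.1 (hT2 c hc).2.2⟩
    exact_mod_cast h4

/-- The proportion of the twists with a section among the locally soluble ones. -/
theorem ratio_of (hAbs : StmtAbsL) (hL1 : StmtL1L) (hL2 : StmtL2L) (hL4 : StmtL4L)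
    {k K0 : Type} [Field k] [NumberField k] [Field K0] [Algebra k K0] {ℓ : ℕ} (hℓ : ℓ.Prime)
    (hmu : HasMu k ℓ) {h : K0} (hG : GoodCurve k ℓ h) (hHL : HL k ℓ h) :
    ∃ η : ℝ, 0 < η ∧ ∀ S : Set (Pr k), S.Finite → ∃ C : ℝ, 0 < C ∧ ∀ X : ℕ, 3 ≤ X →
      (Nat.card (clsU ℓ (fun c : kˣ => LocSol ℓ h S (c : k) ∧ HasSec ℓ h (c : k)) X) : ℝ) ≤
        C * Nat.card (clsU ℓ (fun c : kˣ => LocSol ℓ h S (c : k)) X) / Real.log X ^ η := by
  have hlog : ∀ X : ℕ, 3 ≤ X → 0 < Real.log X := fun X hX => Real.log_pos (by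
    have h1 : (3 : ℝ) ≤ X := by exact_mod_cast hX
    linarith)
  have hempty : ∀ (P : kˣ → Prop) (X : ℕ), (∀ c, ¬ P c) → Nat.card (clsU ℓ P X) = 0 := by
    intro P X hP
    have h1 : clsU ℓ P X = ∅ := by
      rw [Set.eq_empty_iff_forall_notMem]
      rintro _ ⟨c, -, -, h2⟩
      exact hP c h2
    rw [h1, Nat.card_coe_set_eq, Set.ncard_empty]
  rcases locSol_bounds hAbs hL1 hL2 hL4 hℓ hmu hG hHL with h0 | ⟨κ, η, C, hκ, hη, hC, hup, hlow⟩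
  · refine ⟨1, one_pos, fun S _ => ⟨1, one_pos, fun X hX => ?_⟩⟩
    rw [hempty (fun c : kˣ => LocSol ℓ h S (c : k) ∧ HasSec ℓ h (c : k)) X
      fun c h1 => h0 c c.ne_zero h1.2]
    have := hlog X hX
    rw [Nat.cast_zero]
    positivity
  refine ⟨η, hη, fun S hS => ?_⟩
  by_cases hex : ∃ c₀ : kˣ, LocSol ℓ h S (c₀ : k)
  swap
  · refine ⟨1, one_pos, fun X hX => ?_⟩
    rw [hempty (fun c : kˣ => LocSol ℓ h S (c : k) ∧ HasSec ℓ h (c : k)) X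
      fun c h1 => hex ⟨c, h1.1⟩]
    have := hlog X hX
    rw [Nat.cast_zero]
    positivity
  obtain ⟨c₀, hc₀⟩ := hex
  obtain ⟨δ, X₀, hδ, h3⟩ := hlow S hS c₀ hc₀
  have hlX0 : 0 ≤ Real.log ((X₀ : ℕ) : ℝ) := Real.log_natCast_nonneg X₀
  refine ⟨C / δ + Real.log X₀ ^ η, by positivity, fun X hX => ?_⟩
  have hlX := hlog X hX
  have hlη : 0 < Real.log X ^ η := Real.rpow_pos_of_pos hlX η
  obtain ⟨NL, hNL⟩ : ∃ n : ℝ, n = Nat.card (clsU ℓ (fun c : kˣ => LocSol ℓ h S (c : k)) X) :=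
    ⟨_, rfl⟩
  have hNL0 : 0 ≤ NL := by rw [hNL]; exact Nat.cast_nonneg _
  rw [← hNL, le_div_iff₀ hlη, add_mul]
  rcases le_or_gt X₀ X with hXX | hXX
  · have h4 := hup (fun c => LocSol ℓ h S (c : k)) X hX
    rw [le_div_iff₀ hlη] at h4
    have h5 := h3 X hXX
    rw [← hNL] at h5
    have h6 : C * (X * Real.log X ^ (κ - 1)) ≤ C / δ * NL := by
      calc C * (X * Real.log X ^ (κ - 1)) =
          C / δ * (δ * (X * Real.log X ^ (κ - 1))) := by field_simp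
        _ ≤ C / δ * NL := mul_le_mul_of_nonneg_left h5 (by positivity)
    have h7 : 0 ≤ Real.log X₀ ^ η * NL := by positivity
    linarith
  · have h1 : (Nat.card (clsU ℓ (fun c : kˣ => LocSol ℓ h S (c : k) ∧ HasSec ℓ h (c : k)) X) : ℝ) ≤
        NL := by
      rw [hNL]
      have h2 : clsU ℓ (fun c : kˣ => LocSol ℓ h S (c : k) ∧ HasSec ℓ h (c : k)) X ⊆
          clsU ℓ (fun c : kˣ => LocSol ℓ h S (c : k)) X := by
        rintro _ ⟨c, rfl, h3, h4, -⟩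
        exact ⟨c, rfl, h3, h4⟩
      exact_mod_cast Nat.card_mono (clsU_finite hℓ.two_le _ X) h2
    have h3 : Real.log X ^ η ≤ Real.log X₀ ^ η := by
      refine Real.rpow_le_rpow hlX.le ?_ hη.le
      refine Real.log_le_log (by
        have h1 : (3 : ℝ) ≤ X := by exact_mod_cast hX
        linarith) ?_
      exact_mod_cast hXX.le
    have h4 : (Nat.card (clsU ℓ (fun c : kˣ => LocSol ℓ h S (c : k) ∧ HasSec ℓ h (c : k)) X) : ℝ) *
        Real.log X ^ η ≤ Real.log X₀ ^ η * NL := by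
      rw [mul_comm]
      exact mul_le_mul h3 h1 (Nat.cast_nonneg _) (Real.rpow_nonneg hlX0 η)
    have h5 : 0 ≤ C / δ * NL := by positivity
    linarith

/-! ## The projective line -/

/-- everywhere locally soluble -/
def ELS {k K₀ : Type} [Field k] [NumberField k] [Field K₀] [Algebra k K₀] (ℓ : ℕ) (h : K₀)
    (c : k) : Prop :=
  (∀ v : Pr k, TwistPoint ℓ h c (v.adicCompletion k)) ∧
  ∀ φ : k →+* ℝ, @TwistPoint k K₀ _ _ _ ℓ h c ℝ _ φ.toAlgebra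

/-- a rational point gives a section -/
theorem hasSec_of_point {k K₀ : Type} [Field k] [CharZero k] [Field K₀] [Algebra k K₀] {ℓ : ℕ}
    {h : K₀} {c : k} (H : TwistPoint ℓ h c k) : HasSec ℓ h c := by
  obtain ⟨K, _, _, _, _, y, hy, -, P, ψ, hψ⟩ := H
  refine ⟨K, inferInstance, inferInstance, inferInstance, inferInstance, y, hy, ?_⟩
  refine Pool.Agent.Helper88.HG.section_of_place P (fun a => (hψ a).1) fun z hz => ?_
  obtain ⟨h1, h2⟩ := hψ (ψ ⟨z, hz⟩)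
  refine ⟨ψ ⟨z, hz⟩, ?_⟩
  have h3 : ψ (⟨z, hz⟩ - ⟨algebraMap k K (ψ ⟨z, hz⟩), h1⟩) = 0 := by
    rw [map_sub, h2]
    exact sub_self _
  have h4 : ¬ IsUnit (⟨z, hz⟩ - ⟨algebraMap k K (ψ ⟨z, hz⟩), h1⟩ : P) := by
    intro hu
    have h5 := hu.map ψ
    rw [h3] at h5
    exact not_isUnit_zero h5
  exact (P.valuation_lt_one_iff _).1 ((IsLocalRing.mem_maximalIdeal _).2 h4)

theorem p1_els (hHWL : StmtHWL) (hLP : StmtLPL) (hST : StmtSTL) {k K0 : Type} [Field k]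
    [NumberField k] [Field K0] [Algebra k K0] {ℓ : ℕ} (hℓ : ℓ.Prime) (hmu : HasMu k ℓ)
    {h x : K0} (hG : GoodCurve k ℓ h) (hgen : IntermediateField.adjoin k {x} = ⊤) :
    (∃ S : Set (Pr k), S.Finite ∧ ∀ c : k, c ≠ 0 → (ELS ℓ h c ↔ LocSol ℓ h S c)) ∧
    ∃ c₀ : kˣ, ELS ℓ h (c₀ : k) ∧ HasSec ℓ h (c₀ : k) := by
  obtain ⟨⟨Bad, hBad, H⟩, c₀, hc₀⟩ := hHWL hLP hST k K0 ℓ hℓ hmu h x hG hgen
  refine ⟨⟨Bad, hBad, fun c hc => ⟨fun h1 => ⟨fun v _ => h1.1 v, h1.2⟩, fun h1 => ⟨fun v => ?_,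
    h1.2⟩⟩⟩, c₀, ⟨fun v => hc₀ _, fun φ => ?_⟩, hasSec_of_point (hc₀ k)⟩
  · by_cases h2 : v ∈ Bad ∨ IsRam ℓ v c
    · exact h1.1 v h2
    · push Not at h2
      exact H v h2.1 c hc h2.2
  · let _ := φ.toAlgebra
    exact hc₀ ℝ

end Pool.Agent.MLF
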